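import Pool.Agent.V7H41.CC.Spec4

/-!
# Cutting off a piece of a tree (CUT)

For neighbours `u`, `v` of a tree the branch `Br u v` is the set of the vertices which are joined to
`v` by a walk avoiding `u`. A minimal branch with at least `s` leaves in `L` has less than `2 s`.
-/

open Finset

namespace Pool.Agent.V7H31.CC

open Pool.Agent.V7H41.CC

variable {V : Type} {G : SimpleGraph V}

/-- the branch at `u` through `v` -/
def Br (G : SimpleGraph V) (u v : V) : Set V := {x | ∃ p : G.Walk v x, u ∉ p.support}

theorem mem_self {u v : V} (h : u ≠ v) : v ∈ Br G u v :=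
  ⟨.nil, by simpa using h⟩

theorem not_mem_root {u v : V} : u ∉ Br G u v := by
  rintro ⟨p, hp⟩
  exact hp p.end_mem_support

/-- a walk from a vertex of the branch to a vertex outside meets the root -/
theorem root_mem {u v x y : V} (hx : x ∈ Br G u v) (hy : y ∉ Br G u v) (p : G.Walk x y) :
    u ∈ p.support := by
  by_contra h
  obtain ⟨q, hq⟩ := hx
  refine hy ⟨q.append p, fun h1 => ?_⟩
  rcases SimpleGraph.Walk.mem_support_append_iff _ _ |>.1 h1 with h2 | h2
  · exact hq h2
  · exact h h2

/-- paths between vertices of the branch stay in the branch -/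
theorem path_in (hG : G.IsAcyclic) {u v x y z : V} (hx : x ∈ Br G u v) (hy : y ∈ Br G u v)
    (p : G.Walk x y) (hp : p.IsPath) (hz : z ∈ p.support) : z ∈ Br G u v := by
  classical
  obtain ⟨q, hq⟩ := hx
  obtain ⟨r, hr⟩ := hy
  have h1 : u ∉ (q.reverse.append r).support := by
    intro h
    rcases SimpleGraph.Walk.mem_support_append_iff _ _ |>.1 h with h2 | h2
    · rw [SimpleGraph.Walk.support_reverse, List.mem_reverse] at h2
      exact hq h2
    · exact hr h2
  have h2 : (q.reverse.append r).bypass = p := by
    have h3 := hG.path_unique ⟨_, (q.reverse.append r).bypass_isPath⟩ ⟨p, hp⟩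
    exact congrArg Subtype.val h3
  have h3 : u ∉ p.support := by
    rw [← h2]
    exact fun h => h1 (SimpleGraph.Walk.support_bypass_subset_support _ h)
  refine ⟨q.append (p.takeUntil z hz), fun h => ?_⟩
  rcases SimpleGraph.Walk.mem_support_append_iff _ _ |>.1 h with h4 | h4
  · exact hq h4
  · exact h3 (SimpleGraph.Walk.support_takeUntil_subset_support _ hz h4)

/-- paths between vertices outside of the branch stay outside -/
theorem path_out {u v x y z : V} (hx : x ∉ Br G u v) (hy : y ∉ Br G u v)
    (p : G.Walk x y) (hp : p.IsPath) (hz : z ∈ p.support) : z ∉ Br G u v := by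
  classical
  intro h
  have hzu : u ≠ z := by
    rintro rfl
    exact not_mem_root h
  have h1 : u ∈ (p.takeUntil z hz).support := by
    have h2 := root_mem h hx (p.takeUntil z hz).reverse
    rwa [SimpleGraph.Walk.support_reverse, List.mem_reverse] at h2
  have h2 : u ∈ (p.dropUntil z hz).support := root_mem h hy _
  have h3 := hp.support_nodup
  rw [← p.take_spec hz, SimpleGraph.Walk.support_append, List.nodup_append] at h3
  have h4 : u ∈ (p.dropUntil z hz).support.tail := by
    rw [SimpleGraph.Walk.mem_support_iff] at h2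
    exact h2.resolve_left hzu
  exact h3.2.2 u h1 u h4 rfl

/-- the vertices of a branch other than `v` are in the branches at `v` -/
theorem step {u v x : V} (hx : x ∈ Br G u v) (hxv : x ≠ v) :
    ∃ w, G.Adj v w ∧ w ≠ u ∧ x ∈ Br G v w := by
  classical
  obtain ⟨p, hp⟩ := hx
  have h1 : u ∉ p.bypass.support := fun h => hp (p.support_bypass_subset_support h)
  have h2 := p.bypass_isPath
  revert h1 h2
  generalize p.bypass = q
  intro h1 h2
  cases q with
  | nil => exact absurd rfl hxv
  | @cons _ w _ hadj q =>
    rw [SimpleGraph.Walk.cons_isPath_iff] at h2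
    refine ⟨w, hadj, ?_, q, h2.2⟩
    rintro rfl
    exact h1 (by simp)

/-- every other vertex is in a branch -/
theorem first_step {x y : V} (p : G.Walk x y) (hne : y ≠ x) : ∃ w, G.Adj x w ∧ y ∈ Br G x w := by
  classical
  have h3 := p.bypass_isPath
  revert h3
  generalize p.bypass = q
  intro h3
  cases q with
  | nil => exact absurd rfl hne
  | @cons _ w' _ hadj' q =>
    rw [SimpleGraph.Walk.cons_isPath_iff] at h3
    exact ⟨w', hadj', q, h3.2⟩

/-- the branches at `v` not through `u` are in the branch at `u` through `v` -/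
theorem branch_subset (hG : G.IsAcyclic) {u v w : V} (huv : G.Adj u v) (hvw : G.Adj v w)
    (hwu : w ≠ u) : Br G v w ⊆ Br G u v := by
  classical
  intro x hx
  obtain ⟨p, hp⟩ := hx
  have h1 : u ∉ p.support := by
    intro h
    have h2 : v ∉ (p.takeUntil u h).bypass.support := fun h3 =>
      hp (SimpleGraph.Walk.support_takeUntil_subset_support _ h
        (SimpleGraph.Walk.support_bypass_subset_support _ h3))
    have h3 : (SimpleGraph.Walk.cons hvw.symm (SimpleGraph.Walk.cons huv.symm .nil)).IsPath := by
      rw [SimpleGraph.Walk.cons_isPath_iff, SimpleGraph.Walk.cons_isPath_iff]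
      refine ⟨⟨SimpleGraph.Walk.IsPath.nil, ?_⟩, ?_⟩
      · simpa using huv.ne'
      · simp only [SimpleGraph.Walk.support_cons, SimpleGraph.Walk.support_nil, List.mem_cons,
          List.not_mem_nil, or_false, not_or]
        exact ⟨hvw.ne', hwu⟩
    have h4 := hG.path_unique ⟨_, (p.takeUntil u h).bypass_isPath⟩ ⟨_, h3⟩
    have h5 := congrArg Subtype.val h4
    simp only at h5
    rw [h5] at h2
    exact h2 (by simp)
  refine ⟨SimpleGraph.Walk.cons hvw p, fun h => ?_⟩
  rw [SimpleGraph.Walk.support_cons, List.mem_cons] at h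
  rcases h with h | h
  · exact huv.ne h
  · exact h1 h

theorem t_CUT : S_CUT := by
  classical
  intro n T L s hs hL
  have hfin := T.finite
  have hconn : T.G.Connected := T.isTree.1
  have hac : T.G.IsAcyclic := T.isTree.2
  obtain ⟨f, hf⟩ : ∃ f : T.V → T.V → Finset (Fin n),
    f = fun u v => L.filter fun i => T.leaf i ∈ Br T.G u v := ⟨_, rfl⟩
  have hfm : ∀ u v i, i ∈ f u v ↔ i ∈ L ∧ T.leaf i ∈ Br T.G u v := by
    intro u v i
    rw [hf]
    simp
  -- some branch has at least `s` leaves
  have hex : ∃ N : ℕ, ∃ u v, T.G.Adj u v ∧ s ≤ (f u v).card ∧ (Br T.G u v).ncard = N := by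
    obtain ⟨i0, hi0⟩ : L.Nonempty := by
      rw [← Finset.card_pos]
      omega
    have h1 := (T.isLeaf (T.leaf i0)).1 ⟨i0, rfl⟩
    obtain ⟨w, hw⟩ := Set.ncard_eq_one.1 h1
    have hadj : T.G.Adj (T.leaf i0) w := by
      have : w ∈ T.G.neighborSet (T.leaf i0) := by
        rw [hw]
        exact rfl
      exact this
    refine ⟨_, T.leaf i0, w, hadj, ?_, rfl⟩
    have h2 : L.erase i0 ⊆ f (T.leaf i0) w := by
      intro i hi
      rw [Finset.mem_erase] at hi
      rw [hfm]
      refine ⟨hi.2, ?_⟩
      have hne : T.leaf i ≠ T.leaf i0 := fun h => hi.1 (T.leaf_inj h)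
      obtain ⟨p⟩ := hconn.preconnected (T.leaf i0) (T.leaf i)
      obtain ⟨w', hadj', h3⟩ := first_step p hne
      have h4 : w' = w := by
        have : w' ∈ T.G.neighborSet (T.leaf i0) := hadj'
        rw [hw] at this
        exact this
      rw [← h4]
      exact h3
    have h3 := Finset.card_le_card h2
    rw [Finset.card_erase_of_mem hi0] at h3
    omega
  obtain ⟨u, v, huv, hsv, hN⟩ := Nat.find_spec hex
  have hmin : ∀ u' v', T.G.Adj u' v' → (Br T.G u' v').ncard < (Br T.G u v).ncard →
      (f u' v').card < s := by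
    intro u' v' h1 h2
    by_contra h3
    rw [hN] at h2
    exact Nat.find_min hex h2 ⟨u', v', h1, not_lt.1 h3, rfl⟩
  -- less than `2 s`
  have hlt : (f u v).card < 2 * s := by
    rcases T.degree v with h1 | h3
    · obtain ⟨w, hw⟩ := Set.ncard_eq_one.1 h1
      have hwu : u = w := by
        have : u ∈ T.G.neighborSet v := huv.symm
        rw [hw] at this
        exact this
      have h2 : (f u v).card ≤ 1 := by
        rw [Finset.card_le_one]
        intro i hi j hj
        rw [hfm] at hi hj
        have key : ∀ x, x ∈ Br T.G u v → x = v := by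
          intro x hx
          by_contra hxv
          obtain ⟨w', h4, h5, -⟩ := step hx hxv
          have : w' ∈ T.G.neighborSet v := h4
          rw [hw] at this
          exact h5 (this.trans hwu.symm)
        exact T.leaf_inj ((key _ hi.2).trans (key _ hj.2).symm)
      omega
    · have hu : u ∈ T.G.neighborSet v := huv.symm
      have h4 : (T.G.neighborSet v \ {u}).ncard = 2 := by
        have := Set.ncard_sdiff_singleton_add_one hu (Set.toFinite _)
        omega
      obtain ⟨a, b, hab, h5⟩ := Set.ncard_eq_two.1 h4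
      have ha : a ∈ T.G.neighborSet v \ {u} := by
        rw [h5]
        exact Set.mem_insert _ _
      have hb : b ∈ T.G.neighborSet v \ {u} := by
        rw [h5]
        exact Set.mem_insert_of_mem _ rfl
      have hsmall : ∀ w, w ∈ T.G.neighborSet v \ {u} → (f v w).card < s := by
        intro w hw
        refine hmin v w hw.1 ?_
        refine Set.ncard_lt_ncard ⟨branch_subset hac huv hw.1 hw.2, fun h => ?_⟩ (Set.toFinite _)
        exact not_mem_root (h (mem_self huv.ne))
      have h6 : f u v ⊆ f v a ∪ f v b := by
        intro i hi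
        rw [hfm] at hi
        have hiv : T.leaf i ≠ v := by
          intro h
          have := (T.isLeaf v).1 ⟨i, h⟩
          omega
        obtain ⟨w, h7, h8, h9⟩ := step hi.2 hiv
        have h10 : w ∈ T.G.neighborSet v \ {u} := ⟨h7, h8⟩
        rw [h5] at h10
        rw [Finset.mem_union, hfm, hfm]
        rcases h10 with h10 | h10
        · left
          rw [← h10]
          exact ⟨hi.1, h9⟩
        · right
          have h11 : w = b := h10
          rw [← h11]
          exact ⟨hi.1, h9⟩
      have h7 := (Finset.card_le_card h6).trans (Finset.card_union_le _ _)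
      have h8 := hsmall a ha
      have h9 := hsmall b hb
      omega
  refine ⟨f u v, fun i hi => ((hfm u v i).1 hi).1, hsv, hlt, fun A B hA hB => ?_⟩
  rw [Set.disjoint_left]
  rintro z ⟨a, ha, a', ha', p, hp, hz⟩ ⟨b, hb, b', hb', q, hq, hz'⟩
  have h1 : z ∈ Br T.G u v :=
    path_in hac ((hfm u v a).1 (hA ha)).2 ((hfm u v a').1 (hA ha')).2 p hp hz
  have hout : ∀ b ∈ B, T.leaf b ∉ Br T.G u v := by
    intro b hb h
    have h2 := hB hb
    rw [Finset.mem_sdiff, hfm] at h2
    exact h2.2 ⟨h2.1, h⟩
  exact path_out (hout b hb) (hout b' hb') q hq hz' h1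

end Pool.Agent.V7H31.CC
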