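import Pool.Agent.V7H41.CC.Spec

set_option autoImplicit false

/-!
# The final numerical inequality
-/

namespace Pool.Agent.V7H31.CC

open Pool.Agent.V7H41.CC Filter

theorem logB : Real.log (100 / 97) ≤ 0.03046 := by
  have h := Real.abs_log_sub_add_sum_range_le (x := 0.03) (by rw [abs_of_pos] <;> norm_num) 3
  have h1 : Real.log (100 / 97) = -Real.log (1 - 0.03) := by
    rw [← Real.log_inv]
    norm_num
  rw [abs_le] at h
  have h2 := h.1
  rw [abs_of_pos (by norm_num : (0:ℝ) < 0.03)] at h2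
  simp only [Finset.sum_range_succ, Finset.sum_range_zero] at h2
  rw [h1]
  norm_num at h2 ⊢
  linarith

theorem logA : -0.42 ≤ 3 * Real.log (100 / 28) - Real.log 2 - 3 * Real.log 3
    + 3 * Real.log (1 - 0.28 ^ 2) := by
  have h : 3 * Real.log (100 / 28) - Real.log 2 - 3 * Real.log 3 + 3 * Real.log (1 - 0.28 ^ 2) =
      Real.log ((100 / 28) ^ 3 * (1 - 0.28 ^ 2) ^ 3 / (2 * 3 ^ 3)) := by
    have h1 : Real.log ((100 / 28) ^ 3 * (1 - 0.28 ^ 2) ^ 3 / (2 * 3 ^ 3)) =
        Real.log ((100 / 28 : ℝ) ^ 3) + Real.log ((1 - 0.28 ^ 2 : ℝ) ^ 3) -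
          (Real.log 2 + Real.log ((3 : ℝ) ^ 3)) := by
      rw [← Real.log_mul (by norm_num) (by norm_num), ← Real.log_mul (by norm_num) (by norm_num),
        ← Real.log_div (by norm_num) (by norm_num)]
    rw [h1, Real.log_pow, Real.log_pow, Real.log_pow]
    push_cast
    ring
  rw [h, Real.le_log_iff_exp_le (by norm_num)]
  have h1 : (1.5217 : ℝ) ≤ Real.exp 0.42 := by
    have := Real.sum_le_exp_of_nonneg (x := 0.42) (by norm_num) 5
    refine le_trans ?_ this
    simp only [Finset.sum_range_succ, Finset.sum_range_zero, Nat.factorial]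
    norm_num
  rw [Real.exp_neg]
  refine le_trans (inv_anti₀ (by norm_num) h1) ?_
  norm_num

/-- the gap -/
theorem gap : 3 ≤ 84 * (3 * Real.log (100 / 28) + 4 - Real.log 2 - 3 * Real.log 3
    + 3 * Real.log (1 - 0.28 ^ 2)) + 6900 - 6984 * (Real.log (100 / 97) + 1 + 1 / 10000) := by
  have h1 := logB
  have h2 := logA
  linarith

theorem small (K : ℝ) : ∀ᶠ t : ℕ in atTop, 144 * |K| * (Real.log t + 1) < 3 * t := by
  have h1 : Tendsto (fun t : ℝ => (Real.log t + 1) / t) atTop (nhds 0) := by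
    have h2 : Tendsto (fun t : ℝ => Real.log t / t) atTop (nhds 0) := by
      have := Real.isLittleO_log_id_atTop.tendsto_div_nhds_zero
      simpa using this
    have h3 : Tendsto (fun t : ℝ => t⁻¹) atTop (nhds 0) := tendsto_inv_atTop_zero
    have h4 := h2.add h3
    rw [add_zero] at h4
    refine h4.congr fun t => ?_
    rw [add_div, one_div]
  have h2 : Tendsto (fun t : ℕ => (Real.log t + 1) / (t : ℝ)) atTop (nhds 0) :=
    h1.comp tendsto_natCast_atTop_atTop
  have h3 : (0 : ℝ) < 3 / (144 * |K| + 1) := by positivity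
  filter_upwards [h2.eventually (gt_mem_nhds h3), eventually_ge_atTop 1] with t h4 h5
  have h6 : (0 : ℝ) < t := by exact_mod_cast h5
  rw [div_lt_div_iff₀ h6 (by positivity)] at h4
  have h7 : 0 ≤ Real.log t := Real.log_nonneg (by exact_mod_cast h5)
  nlinarith [abs_nonneg K]

/-- **NUM** -/
theorem t_NUM : S_NUM := by
  intro K
  obtain ⟨t₀, ht₀⟩ := eventually_atTop.1 (small K)
  refine ⟨max t₀ 1, fun t ht n m1 m2 m3 hn h1 h2 h3 => ?_⟩
  have ht0 : t₀ ≤ t := le_trans (le_max_left _ _) ht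
  have ht1 : 1 ≤ t := le_trans (le_max_right _ _) ht
  have hs := ht₀ t ht0
  have hg := gap
  have htp : (0 : ℝ) < t := by exact_mod_cast ht1
  subst hn h1 h2 h3
  push_cast
  have e0 : Real.log ((100 * (t:ℝ)) ^ 2) = 2 * Real.log (100 * t) := by
    rw [Real.log_pow]
    norm_num
  have e1 : Real.log (28 * (t:ℝ)) = Real.log (100 * t) - Real.log (100 / 28) := by
    rw [← Real.log_div (by positivity) (by norm_num)]
    congr 1
    field_simp
  have e2 : Real.log (97 * (t:ℝ)) = Real.log (100 * t) - Real.log (100 / 97) := by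
    rw [← Real.log_div (by positivity) (by norm_num)]
    congr 1
    field_simp
  rw [e0, e1, e2]
  set Λ := Real.log (100 * (t:ℝ)) with hΛ
  set x := Real.log (100 / 28)
  set y := Real.log (100 / 97)
  set a := Real.log 2
  set c := Real.log 3
  set z := Real.log (1 - 0.28 ^ 2)
  set l := Real.log (t:ℝ)
  have hK : K * (l + 1) ≤ |K| * (l + 1) := by
    have : 0 ≤ l := Real.log_nonneg (by exact_mod_cast ht1)
    exact mul_le_mul_of_nonneg_right (le_abs_self K) (by linarith)
  have key : 144 * t * (K * (l + 1)) <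
      t ^ 2 * (84 * (3 * x + 4 - a - 3 * c + 3 * z) + 6900 - 6984 * (y + 1 + 1 / 10000)) := by
    have h4 : 144 * (t:ℝ) * (K * (l + 1)) ≤ t * (144 * |K| * (l + 1)) := by nlinarith
    have h5 : (t:ℝ) * (144 * |K| * (l + 1)) < t * (3 * t) := mul_lt_mul_of_pos_left hs htp
    have h6 : (t:ℝ) * (3 * t) ≤
        t ^ 2 * (84 * (3 * x + 4 - a - 3 * c + 3 * z) + 6900 - 6984 * (y + 1 + 1 / 10000)) := by
      have := mul_le_mul_of_nonneg_left hg (sq_nonneg (t:ℝ))
      linarith
    linarith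
  nlinarith [key]

end Pool.Agent.V7H31.CC
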