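import Pool.Agent.V7H41.CC.Spec3
import Pool.Agent.V7H31.CC.NUM

set_option autoImplicit false

/-!
# The final numerical inequality for all large `n`
-/

namespace Pool.Agent.V7H31.CC

open Pool.Agent.V7H41.CC Filter

/-- **NUM3** -/
theorem t_NUM3 : S_NUM3 := by
  intro K
  obtain ⟨t₀, ht₀⟩ := eventually_atTop.1 (small K)
  refine ⟨max t₀ 1, fun t ht n m1 m2 m3 hn hn' h1 h2 h3 => ?_⟩
  have ht0 : t₀ ≤ t := le_trans (le_max_left _ _) ht
  have ht1 : 1 ≤ t := le_trans (le_max_right _ _) ht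
  have hs := ht₀ t ht0
  have hg := gap
  have htp : (0 : ℝ) < t := by exact_mod_cast ht1
  subst h1 h2 h3
  push_cast
  have e0 : 2 * Real.log (100 * (t:ℝ)) ≤ Real.log n := by
    have h4 : Real.log ((100 * (t:ℝ)) ^ 2) = 2 * Real.log (100 * t) := by
      rw [Real.log_pow]
      norm_num
    rw [← h4]
    refine Real.log_le_log (by positivity) ?_
    exact_mod_cast hn
  have e1 : Real.log (28 * (t:ℝ)) = Real.log (100 * t) - Real.log (100 / 28) := by
    rw [← Real.log_div (by positivity) (by norm_num)]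
    congr 1
    field_simp
  have e2 : Real.log (97 * (t:ℝ)) = Real.log (100 * t) - Real.log (100 / 97) := by
    rw [← Real.log_div (by positivity) (by norm_num)]
    congr 1
    field_simp
  rw [e1, e2]
  set Λ := Real.log (100 * (t:ℝ)) with hΛ
  set x := Real.log (100 / 28)
  set y := Real.log (100 / 97)
  set a := Real.log 2
  set c := Real.log 3
  set z := Real.log (1 - 0.28 ^ 2)
  set l := Real.log (t:ℝ)
  obtain ⟨e, he⟩ : ∃ e, Real.log n = 2 * Λ + e := ⟨Real.log n - 2 * Λ, by ring⟩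
  have he0 : 0 ≤ e := by linarith
  rw [he]
  have hK : K * (l + 1) ≤ |K| * (l + 1) := by
    have : 0 ≤ l := Real.log_nonneg (by exact_mod_cast ht1)
    exact mul_le_mul_of_nonneg_right (le_abs_self K) (by linarith)
  have key : 144 * t * (K * (l + 1)) <
      t ^ 2 * (84 * (3 * x + 4 - a - 3 * c + 3 * z) + 6900 - 6984 * (y + 1 + 1 / 10000)) := by
    have h4 : 144 * (t:ℝ) * (K * (l + 1)) ≤ t * (144 * |K| * (l + 1)) := by nlinarith
    have h5 : (t:ℝ) * (144 * |K| * (l + 1)) < t * (3 * t) := mul_lt_mul_of_pos_left hs htp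
    have h6 : (t:ℝ) * (3 * t) ≤
        t ^ 2 * (84 * (3 * x + 4 - a - 3 * c + 3 * z) + 6900 - 6984 * (y + 1 + 1 / 10000)) := by
      have := mul_le_mul_of_nonneg_left hg (sq_nonneg (t:ℝ))
      linarith
    linarith
  have h7 : 0 ≤ (t:ℝ) ^ 2 * e := by positivity
  nlinarith [key, h7]

end Pool.Agent.V7H31.CC
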