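import Pool.Agent.V7H41.CC.Spec5

/-!
# The last `(log n) / 6` indices (TAIL)
-/

open Finset

namespace Pool.Agent.V7H31.CC

open Pool.Agent.V7H41.CC

/-- the terms are at most the last one -/
theorem term_nat {n m k : ℕ} (hkm : k + 1 ≤ m) (hn : 4 * m ^ 2 * (m + 1) ≤ n) :
    (2 * m).factorial ^ 2 * ((m - k).factorial * (k + 2).factorial) ≤
      2 * m.factorial * (m + (m - k)).factorial ^ 2 * n ^ k := by
  have h1 : (2 * m).factorial ≤ (m + (m - k)).factorial * (2 * m) ^ k := by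
    have h2 := Nat.factorial_mul_descFactorial (show k ≤ 2 * m by omega)
    have h3 := Nat.descFactorial_le_pow (2 * m) k
    rw [← h2, show 2 * m - k = m + (m - k) by omega]
    exact Nat.mul_le_mul_left _ h3
  have h4 : (k + 2).factorial ≤ 2 * (m + 1) ^ k := by
    have h2 := Nat.factorial_mul_descFactorial (show k ≤ k + 2 by omega)
    have h3 := Nat.descFactorial_le_pow (k + 2) k
    rw [← h2, show k + 2 - k = 2 by omega]
    exact Nat.mul_le_mul_left _ (h3.trans (Nat.pow_le_pow_left (by omega) k))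
  have h5 : (m - k).factorial ≤ m.factorial := Nat.factorial_le (by omega)
  calc (2 * m).factorial ^ 2 * ((m - k).factorial * (k + 2).factorial)
      ≤ ((m + (m - k)).factorial * (2 * m) ^ k) ^ 2 * (m.factorial * (2 * (m + 1) ^ k)) :=
        Nat.mul_le_mul (Nat.pow_le_pow_left h1 2) (Nat.mul_le_mul h5 h4)
    _ = 2 * m.factorial * (m + (m - k)).factorial ^ 2 * (4 * m ^ 2 * (m + 1)) ^ k := by
        rw [mul_pow, mul_pow (4 * m ^ 2), mul_pow 4, mul_pow 2 m, mul_pow (2 ^ k)]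
        rw [← pow_mul 2 k 2, mul_comm k 2, pow_mul 2 2 k, ← pow_mul m k 2, mul_comm k 2,
          pow_mul m 2 k]
        ring
    _ ≤ _ := Nat.mul_le_mul_left _ (Nat.pow_le_pow_left hn k)

theorem fact_sq {m : ℕ} (hm : 1 ≤ m) : 4 ^ m * m.factorial ^ 2 ≤ 2 * m * (2 * m).factorial := by
  have h1 := Nat.four_pow_le_two_mul_self_mul_centralBinom m hm
  have h2 : m.centralBinom * (m.factorial * m.factorial) = (2 * m).factorial := by
    rw [Nat.centralBinom_eq_two_mul_choose, ← mul_assoc]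
    have h3 := Nat.choose_mul_factorial_mul_factorial (show m ≤ 2 * m by omega)
    rwa [show 2 * m - m = m by omega] at h3
  calc 4 ^ m * m.factorial ^ 2 ≤ (2 * m * m.centralBinom) * m.factorial ^ 2 :=
        Nat.mul_le_mul_right _ h1
    _ = 2 * m * (m.centralBinom * (m.factorial * m.factorial)) := by ring
    _ = _ := by rw [h2]

/-- the final inequality -/
theorem final_real {m : ℕ} (hm : 1 ≤ m) {x N : ℝ} (hx : 3000000000 ≤ x) (hmx : (m : ℝ) ≤ x)
    (hN : N = Real.exp (6 * x)) :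
    2 * (m : ℝ) * ((m + 1 : ℕ) : ℝ) * (m.factorial : ℝ) ^ 2 * 7 ^ m * 10000 ^ (m + 1) *
      ((m + 1 : ℕ) : ℝ) ^ (2 * (m + 1)) ≤ N ^ 2 * ((2 * m).factorial : ℝ) ^ 2 := by
  have hm1 : (1 : ℝ) ≤ m := by exact_mod_cast hm
  have hm0 : (0 : ℝ) < m := by linarith
  obtain ⟨F, hF⟩ : ∃ F : ℝ, F = ((2 * m).factorial : ℝ) := ⟨_, rfl⟩
  have hF0 : 0 < F := by
    rw [hF]
    exact_mod_cast Nat.factorial_pos _
  have h1 : (4 : ℝ) ^ m * (m.factorial : ℝ) ^ 2 ≤ 2 * m * F := by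
    rw [hF]
    exact_mod_cast fact_sq hm
  have h2 : (2 * (m : ℝ)) ^ (2 * m) ≤ F * Real.exp (2 * m) := by
    have h3 := Real.pow_div_factorial_le_exp (2 * (m : ℝ)) (by linarith) (2 * m)
    rw [div_le_iff₀ (by exact_mod_cast Nat.factorial_pos _), ← hF] at h3
    linarith
  have h4 : ((m : ℝ) + 1) ^ m ≤ (m : ℝ) ^ m * Real.exp 1 := by
    have h5 : (1 + 1 / (m : ℝ)) ^ m ≤ Real.exp 1 := by
      have h6 : 1 + 1 / (m : ℝ) ≤ Real.exp (1 / m) := by
        have := Real.add_one_le_exp (1 / (m : ℝ))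
        linarith
      calc (1 + 1 / (m : ℝ)) ^ m ≤ Real.exp (1 / m) ^ m := by gcongr
        _ = Real.exp 1 := by
          rw [← Real.exp_nat_mul]
          congr 1
          field_simp
    calc ((m : ℝ) + 1) ^ m = (m : ℝ) ^ m * (1 + 1 / (m : ℝ)) ^ m := by
          rw [← mul_pow]
          congr 1
          field_simp
      _ ≤ _ := by gcongr
  have he : Real.exp 1 ≤ 3 := by
    have := Real.exp_one_lt_d9
    linarith
  have h5 : ((m : ℝ) + 1) ^ (2 * m) ≤ 9 * (m : ℝ) ^ (2 * m) := by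
    have h6 : ((m : ℝ) + 1) ^ m ≤ (m : ℝ) ^ m * 3 := h4.trans (by gcongr)
    rw [mul_comm 2 m, pow_mul, pow_mul]
    calc (((m : ℝ) + 1) ^ m) ^ 2 ≤ ((m : ℝ) ^ m * 3) ^ 2 := by gcongr
      _ = 9 * ((m : ℝ) ^ m) ^ 2 := by ring
  -- exponentials
  have h7 : (4375 : ℝ) ≤ Real.exp 9 := by
    have h8 : (2.718 : ℝ) ≤ Real.exp 1 := by
      have := Real.exp_one_gt_d9
      linarith
    have h9 : Real.exp 9 = Real.exp 1 ^ 9 := by
      rw [← Real.exp_nat_mul]
      norm_num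
    rw [h9]
    calc (4375 : ℝ) ≤ 2.718 ^ 9 := by norm_num
      _ ≤ _ := by gcongr
  have h8 : (4375 : ℝ) ^ m * Real.exp (2 * m) ≤ Real.exp (11 * x) := by
    calc (4375 : ℝ) ^ m * Real.exp (2 * m) ≤ Real.exp 9 ^ m * Real.exp (2 * m) := by gcongr
      _ = Real.exp (11 * m) := by
        rw [← Real.exp_nat_mul, ← Real.exp_add]
        congr 1
        ring
      _ ≤ _ := Real.exp_le_exp.2 (by linarith)
  have h9 : 360000 * (m : ℝ) ^ 2 * ((m : ℝ) + 1) ^ 3 ≤ Real.exp x := by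
    have h10 := Real.pow_div_factorial_le_exp x (by linarith) 6
    have h11 : ((6 : ℕ).factorial : ℝ) = 720 := by norm_num [Nat.factorial]
    rw [h11] at h10
    refine le_trans ?_ h10
    rw [le_div_iff₀ (by norm_num)]
    have h12 : (m : ℝ) + 1 ≤ 2 * x := by linarith
    have hx0 : (0 : ℝ) ≤ x := by linarith
    calc 360000 * (m : ℝ) ^ 2 * ((m : ℝ) + 1) ^ 3 * 720 ≤
          360000 * x ^ 2 * (2 * x) ^ 3 * 720 := by gcongr
      _ = 2073600000 * x ^ 5 := by ring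
      _ ≤ x * x ^ 5 := by
        gcongr
        linarith
      _ = x ^ 6 := by ring
  have hN2 : N ^ 2 = Real.exp x * Real.exp (11 * x) := by
    rw [hN, ← Real.exp_nat_mul, ← Real.exp_add]
    congr 1
    push_cast
    ring
  have hN0 : 0 < N := by
    rw [hN]
    exact Real.exp_pos _
  -- assembling
  have key : 40000 * (m : ℝ) ^ 2 * ((m : ℝ) + 1) ^ 3 * 7 ^ m * 10000 ^ m *
      ((m : ℝ) + 1) ^ (2 * m) ≤ 4 ^ m * N ^ 2 * F := by
    have h13 : 40000 * (m : ℝ) ^ 2 * ((m : ℝ) + 1) ^ 3 * 7 ^ m * 10000 ^ m *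
        ((m : ℝ) + 1) ^ (2 * m) * Real.exp (2 * m) ≤
        4 ^ m * N ^ 2 * (F * Real.exp (2 * m)) := by
      calc 40000 * (m : ℝ) ^ 2 * ((m : ℝ) + 1) ^ 3 * 7 ^ m * 10000 ^ m *
            ((m : ℝ) + 1) ^ (2 * m) * Real.exp (2 * m)
          ≤ 40000 * (m : ℝ) ^ 2 * ((m : ℝ) + 1) ^ 3 * 7 ^ m * 10000 ^ m *
            (9 * (m : ℝ) ^ (2 * m)) * Real.exp (2 * m) := by gcongr
        _ = (360000 * (m : ℝ) ^ 2 * ((m : ℝ) + 1) ^ 3) *
            ((4375 : ℝ) ^ m * Real.exp (2 * m)) * (16 ^ m * (m : ℝ) ^ (2 * m)) := by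
          have h14 : (7 : ℝ) ^ m * 10000 ^ m = 4375 ^ m * 16 ^ m := by
            rw [← mul_pow, ← mul_pow]
            norm_num
          linear_combination (40000 * (m : ℝ) ^ 2 * ((m : ℝ) + 1) ^ 3 *
            (9 * (m : ℝ) ^ (2 * m)) * Real.exp (2 * m)) * h14
        _ ≤ Real.exp x * Real.exp (11 * x) * (16 ^ m * (m : ℝ) ^ (2 * m)) := by gcongr
        _ = 4 ^ m * N ^ 2 * (2 * (m : ℝ)) ^ (2 * m) := by
          rw [hN2, mul_pow 2 (m : ℝ), pow_mul 2 2 m]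
          have h15 : (16 : ℝ) ^ m = 4 ^ m * (2 ^ 2) ^ m := by
            rw [← mul_pow]
            norm_num
          rw [h15]
          ring
        _ ≤ _ := by gcongr
    have h16 : 0 < Real.exp (2 * (m : ℝ)) := Real.exp_pos _
    refine le_of_mul_le_mul_right ?_ h16
    calc _ ≤ _ := h13
      _ = _ := by ring
  have h17 : (4 : ℝ) ^ m * (2 * (m : ℝ) * ((m : ℝ) + 1) * (m.factorial : ℝ) ^ 2 * 7 ^ m *
      10000 ^ (m + 1) * ((m : ℝ) + 1) ^ (2 * (m + 1))) ≤ 4 ^ m * (N ^ 2 * F ^ 2) := by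
    calc (4 : ℝ) ^ m * (2 * (m : ℝ) * ((m : ℝ) + 1) * (m.factorial : ℝ) ^ 2 * 7 ^ m *
        10000 ^ (m + 1) * ((m : ℝ) + 1) ^ (2 * (m + 1)))
        = (4 ^ m * (m.factorial : ℝ) ^ 2) * (2 * (m : ℝ) * ((m : ℝ) + 1) * 7 ^ m *
        10000 ^ (m + 1) * ((m : ℝ) + 1) ^ (2 * (m + 1))) := by ring
      _ ≤ (2 * m * F) * (2 * (m : ℝ) * ((m : ℝ) + 1) * 7 ^ m *
        10000 ^ (m + 1) * ((m : ℝ) + 1) ^ (2 * (m + 1))) := by gcongr
      _ = (40000 * (m : ℝ) ^ 2 * ((m : ℝ) + 1) ^ 3 * 7 ^ m * 10000 ^ m *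
          ((m : ℝ) + 1) ^ (2 * m)) * F := by ring
      _ ≤ (4 ^ m * N ^ 2 * F) * F := by gcongr
      _ = _ := by ring
  have h18 := le_of_mul_le_mul_left h17 (by positivity)
  rw [← hF]
  push_cast
  exact h18

theorem t_TAIL (hWB : S_WB) : S_TAIL := by
  refine ⟨⌈Real.exp (6 * 3000000000)⌉₊, fun n m hn hm1 hm => ?_⟩
  have hN : Real.exp (6 * 3000000000) ≤ (n : ℝ) :=
    (Nat.le_ceil _).trans (by exact_mod_cast hn)
  have hNpos : 0 < (n : ℝ) := (Real.exp_pos _).trans_le hN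
  obtain ⟨x, hx⟩ : ∃ x, x = Real.log n / 6 := ⟨_, rfl⟩
  have hNx : (n : ℝ) = Real.exp (6 * x) := by
    rw [hx, show 6 * (Real.log n / 6) = Real.log n by ring, Real.exp_log hNpos]
  have hx0 : 3000000000 ≤ x := by
    have h1 := Real.log_le_log (Real.exp_pos _) hN
    rw [Real.log_exp] at h1
    rw [hx]
    linarith
  have hmx : (m : ℝ) ≤ x := by
    rw [hx]
    exact hm
  have hm1' : (1 : ℝ) ≤ m := by exact_mod_cast hm1
  have hcond : 4 * m ^ 2 * (m + 1) ≤ n := by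
    have h1 : (4 * (m : ℝ) ^ 2 * (m + 1)) ≤ n := by
      have h10 := Real.pow_div_factorial_le_exp x (by linarith) 4
      have h11 : ((4 : ℕ).factorial : ℝ) = 24 := by norm_num [Nat.factorial]
      rw [h11] at h10
      have h12 : (m : ℝ) + 1 ≤ 2 * x := by linarith
      have hx0' : (0 : ℝ) ≤ x := by linarith
      calc 4 * (m : ℝ) ^ 2 * (m + 1) ≤ 4 * x ^ 2 * (2 * x) := by gcongr
        _ = 192 * x ^ 3 / 24 := by ring
        _ ≤ x * x ^ 3 / 24 := by
          gcongr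
          linarith
        _ = x ^ 4 / 24 := by ring
        _ ≤ Real.exp x := h10
        _ ≤ Real.exp (6 * x) := Real.exp_le_exp.2 (by linarith)
        _ = n := hNx.symm
    exact_mod_cast h1
  obtain ⟨B, hB⟩ : ∃ B : ℝ, B = 2 * (n : ℝ) ^ (2 * m) * m.factorial * 7 ^ m /
    ((2 * m).factorial : ℝ) ^ 2 := ⟨_, rfl⟩
  have hterm : ∀ r ∈ Icc 1 m,
      (n.choose (m + r) : ℝ) * r.factorial * W m r / (m + r).factorial ≤ B := by
    intro r hr
    rw [mem_Icc] at hr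
    have h1 : (W m r : ℝ) ≤ 7 ^ m * (m - r + 2).factorial := by
      have h2 := hWB m r hr.1 hr.2
      have h3 : W m r ≤ 7 ^ m * (m - r + 2).factorial :=
        h2.trans (Nat.mul_le_mul_right _ (Nat.pow_le_pow_right (by norm_num) (by omega)))
      exact_mod_cast h3
    have h2 : (n.choose (m + r) : ℝ) ≤ (n : ℝ) ^ (m + r) / (m + r).factorial :=
      Nat.choose_le_pow_div _ _
    have h3 := term_nat (n := n) (m := m) (k := m - r) (by omega) hcond
    rw [show m - (m - r) = r by omega] at h3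
    have h4 : ((2 * m).factorial : ℝ) ^ 2 * ((r.factorial : ℝ) * ((m - r + 2).factorial : ℝ)) ≤
      2 * m.factorial * ((m + r).factorial : ℝ) ^ 2 * (n : ℝ) ^ (m - r) := by
      exact_mod_cast h3
    have hf1 : (0 : ℝ) < (m + r).factorial := by exact_mod_cast Nat.factorial_pos _
    have hf2 : (0 : ℝ) < (2 * m).factorial := by exact_mod_cast Nat.factorial_pos _
    have h5 : (n : ℝ) ^ (2 * m) = (n : ℝ) ^ (m + r) * (n : ℝ) ^ (m - r) := by
      rw [← pow_add]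
      congr 1
      omega
    calc (n.choose (m + r) : ℝ) * r.factorial * W m r / (m + r).factorial
        ≤ ((n : ℝ) ^ (m + r) / (m + r).factorial) * r.factorial *
          (7 ^ m * (m - r + 2).factorial) / (m + r).factorial := by gcongr
      _ = ((n : ℝ) ^ (m + r) * 7 ^ m) * (((2 * m).factorial : ℝ) ^ 2 *
          ((r.factorial : ℝ) * ((m - r + 2).factorial : ℝ))) /
          (((m + r).factorial : ℝ) ^ 2 * ((2 * m).factorial : ℝ) ^ 2) := by
        field_simp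
      _ ≤ ((n : ℝ) ^ (m + r) * 7 ^ m) * (2 * m.factorial * ((m + r).factorial : ℝ) ^ 2 *
          (n : ℝ) ^ (m - r)) /
          (((m + r).factorial : ℝ) ^ 2 * ((2 * m).factorial : ℝ) ^ 2) := by gcongr
      _ = B := by
        rw [hB, h5]
        field_simp
  have hsum := Finset.sum_le_card_nsmul _ _ _ hterm
  rw [Nat.card_Icc, nsmul_eq_mul, show m + 1 - 1 = m by omega] at hsum
  refine hsum.trans ?_
  have hfin := final_real hm1 hx0 hmx hNx
  have hf2 : (0 : ℝ) < (2 * m).factorial := by exact_mod_cast Nat.factorial_pos _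
  have hf3 : (0 : ℝ) < (m + 1).factorial := by exact_mod_cast Nat.factorial_pos _
  have hf4 : ((m + 1).factorial : ℝ) = ((m + 1 : ℕ) : ℝ) * m.factorial := by
    rw [Nat.factorial_succ]
    push_cast
    ring
  rw [hB, div_pow, div_div, mul_div_assoc', div_le_div_iff₀ (by positivity) (by positivity)]
  have h6 : ((n : ℝ) ^ 2) ^ (m + 1) = (n : ℝ) ^ (2 * m) * (n : ℝ) ^ 2 := by
    rw [← pow_mul, ← pow_add]
    congr 1
  rw [h6, mul_pow, ← pow_mul, hf4]
  calc (m : ℝ) * (2 * (n : ℝ) ^ (2 * m) * m.factorial * 7 ^ m) *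
      (10000 ^ (m + 1) * ((m + 1 : ℕ) : ℝ) ^ (2 * (m + 1)) *
        (((m + 1 : ℕ) : ℝ) * m.factorial))
      = (n : ℝ) ^ (2 * m) * (2 * (m : ℝ) * ((m + 1 : ℕ) : ℝ) * (m.factorial : ℝ) ^ 2 * 7 ^ m *
        10000 ^ (m + 1) * ((m + 1 : ℕ) : ℝ) ^ (2 * (m + 1))) := by ring
    _ ≤ (n : ℝ) ^ (2 * m) * ((n : ℝ) ^ 2 * ((2 * m).factorial : ℝ) ^ 2) := by gcongr
    _ = _ := by ring

end Pool.Agent.V7H31.CC
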